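import Pool.Agent.H4.FP.FLMa

/-!
Row `FLM` of `flp_modules` (MP_ee74d2_an): multilinear Kakeya for the energies of the caps of
radius `1/s`.
-/

set_option autoImplicit false

namespace Pool.Agent.H4.FP

open MeasureTheory Set
open Pool.Agent.H83.G
open Pool.Agent.H22.G4 (nv Ind)
open Pool.Agent.H22.G (co)
open Pool.Agent.H82.FP
open scoped ENNReal NNReal RealInnerProductSpace

/-- the energies of the caps as a measure on the light rays, rescaled by `s` -/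
noncomputable def nuM (β : E 2 → ℂ) (s : ℝ) (G : Z 2 → ℂ) (J : Finset (Fin 2 → ℤ)) :
    Measure (Z 2 × E 2) :=
  ∑ k ∈ J, Measure.map (fun z' : Z 2 => ((s⁻¹ • z', ctr s⁻¹ k) : Z 2 × E 2))
    ((volume : Measure (Z 2)).withDensity fun z' => ‖TP β (ctr s⁻¹ k) s⁻¹ G z'‖ₑ ^ 2)

theorem nuM_apply (β : E 2 → ℂ) (s : ℝ) (G : Z 2 → ℂ) (J : Finset (Fin 2 → ℤ))
    {A : Set (Z 2 × E 2)} (hA : MeasurableSet A) :
    nuM β s G J A = ∑ k ∈ J, ∫⁻ z', ‖TP β (ctr s⁻¹ k) s⁻¹ G z'‖ₑ ^ 2 *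
      A.indicator 1 ((s⁻¹ • z', ctr s⁻¹ k) : Z 2 × E 2) := by
  unfold nuM
  rw [Measure.finsetSum_apply]
  refine Finset.sum_congr rfl fun k _ => ?_
  have hf : Measurable (fun z' : Z 2 => ((s⁻¹ • z', ctr s⁻¹ k) : Z 2 × E 2)) := by fun_prop
  rw [Measure.map_apply hf hA, withDensity_apply _ (hf hA), ← lintegral_indicator (hf hA)]
  refine lintegral_congr fun z' => ?_
  by_cases h : ((s⁻¹ • z', ctr s⁻¹ k) : Z 2 × E 2) ∈ A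
  · rw [Set.indicator_of_mem (show z' ∈ (fun z' : Z 2 => ((s⁻¹ • z', ctr s⁻¹ k) : Z 2 × E 2)) ⁻¹' A
      from h), Set.indicator_of_mem h, Pi.one_apply, mul_one]
  · rw [Set.indicator_of_notMem (show z' ∉ (fun z' : Z 2 =>
      ((s⁻¹ • z', ctr s⁻¹ k) : Z 2 × E 2)) ⁻¹' A from h), Set.indicator_of_notMem h, mul_zero]

theorem cp_supp {β : E 2 → ℂ} (hβ : IsPU β) {s : ℝ} (hs : 0 < s) {η : E 2} {ζ : Z 2}
    (h : cp β η s⁻¹ ζ ≠ 0) : ‖ζ.1⁻¹ • ζ.2.1 - η‖ ≤ 1 / s := by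
  unfold cp at h
  rw [inv_inv] at h
  have h1 : ¬ 1 ≤ ‖s • (ζ.1⁻¹ • ζ.2.1 - η)‖ := fun hc => h (hβ.2.1 _ hc)
  push Not at h1
  rw [norm_smul, Real.norm_of_nonneg hs.le] at h1
  rw [le_div_iff₀ hs, mul_comm]
  exact h1.le

theorem TP_zero {β : E 2 → ℂ} (hβ : IsPU β) {K s : ℝ} (hK : 1 ≤ K) (hs : 400 * K ≤ s) {c : E 2}
    {G : Z 2 → ℂ} (hG : ∀ ζ, G ζ ≠ 0 → ‖ζ.1⁻¹ • ζ.2.1 - c‖ ≤ 3 / (400 * K)) {k : Fin 2 → ℤ}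
    (hk : ¬ ‖ctr s⁻¹ k - c‖ ≤ 1 / (100 * K)) (z : Z 2) : TP β (ctr s⁻¹ k) s⁻¹ G z = 0 := by
  have hs0 : 0 < s := by linarith
  have h1 : ∀ ζ, cp β (ctr s⁻¹ k) s⁻¹ ζ * G ζ = 0 := by
    intro ζ
    by_contra hc
    have hG0 : G ζ ≠ 0 := right_ne_zero_of_mul hc
    have h2 := cp_supp hβ hs0 (left_ne_zero_of_mul hc)
    have h3 := hG ζ hG0
    apply hk
    have h4 : 1 / s ≤ 1 / (400 * K) := one_div_le_one_div_of_le (by positivity) hs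
    have e1 : ctr s⁻¹ k - c = -(ζ.1⁻¹ • ζ.2.1 - ctr s⁻¹ k) + (ζ.1⁻¹ • ζ.2.1 - c) := by abel
    have h5 : ‖ctr s⁻¹ k - c‖ ≤ 1 / s + 3 / (400 * K) := by
      rw [e1]
      refine (norm_add_le _ _).trans (add_le_add ?_ h3)
      rw [norm_neg]
      exact h2
    have e2 : 1 / (400 * K) + 3 / (400 * K) = 1 / (100 * K) := by
      field_simp
      norm_num
    linarith
  unfold TP TF
  simp [h1]

theorem ofReal_pow_two (C : ℝ) (hC : 0 ≤ C) (n : ℕ) :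
    ENNReal.ofReal (C * ((2 : ℝ) ^ n)⁻¹) = ENNReal.ofReal C * ((2 : ℝ≥0∞)⁻¹) ^ n := by
  rw [ENNReal.ofReal_mul hC, ENNReal.ofReal_inv_of_pos (by positivity),
    ENNReal.ofReal_pow (by norm_num), ENNReal.ofReal_ofNat, ENNReal.inv_pow]

open Classical in
/-- the energies of the caps at a point -/
theorem capsum (hSCH : T_SCH) (hCPS : T_CPS) {β : E 2 → ℂ} (hβ : IsPU β) {K s D D' CL CT : ℝ}
    {N' N₀ : ℕ} (hK : 1 ≤ K) (hs : 400 * K ≤ s) (hD : 1 ≤ D) (hDD : D ≤ D') (hD13 : 13 ≤ D')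
    (hCT : 1 ≤ CT)
    (hL : ∀ (η : E 2) (s : ℝ) (G : Z 2 → ℂ) (z : Z 2), 1 ≤ s → ‖η‖ ≤ D' → TC G →
      (∀ ζ, G ζ ≠ 0 → 1 / 4 ≤ ζ.1 ∧ ζ.1 ≤ 8 ∧ ‖ζ.1⁻¹ • ζ.2.1 - η‖ ≤ D' / s ∧
        |ζ.2.2 - ‖ζ.2.1‖ ^ 2 / ζ.1| ≤ D' / s ^ 2) →
      ∫⁻ z', ‖TF G z'‖ₑ ^ 2 * ENNReal.ofReal (wt N' (s⁻¹ • (z - z'))) ≤
        ENNReal.ofReal (CL / s) *
          ∫⁻ z', ‖TF G z'‖ₑ ^ 2 * ENNReal.ofReal (wt (N₀ + 1) (Tu η s (z - z'))))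
    (hT : ∀ (η : E 2) (s : ℝ) (z z' : Z 2), 1 ≤ s → ‖η‖ ≤ D' →
      ENNReal.ofReal (wt (N₀ + 1) (Tu η s (z - z'))) ≤
        ∑' l : ℕ, ENNReal.ofReal (CT * ((2 : ℝ) ^ ((N₀ + 1) * l))⁻¹) *
          (TZ (CT * 2 ^ l * s) z).indicator 1 ((z', η) : Z 2 × E 2))
    {c : E 2} (hc : ‖c‖ ≤ 12) {G : Z 2 → ℂ} (hG : TC G)
    (hsupp : ∀ ζ, G ζ ≠ 0 → 1 / 4 ≤ ζ.1 ∧ ζ.1 ≤ 8 ∧ ‖ζ.1⁻¹ • ζ.2.1 - c‖ ≤ 3 / (400 * K) ∧
      |ζ.2.2 - ‖ζ.2.1‖ ^ 2 / ζ.1| ≤ D / s ^ 2) (z : Z 2) :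
    ∑ k ∈ Ks 2 s⁻¹, ∫⁻ z', ‖TP β (ctr s⁻¹ k) s⁻¹ G z'‖ₑ ^ 2 *
      ENNReal.ofReal (wt N' (s⁻¹ • (s • z - z'))) ≤
    ENNReal.ofReal (CL / s) * ENNReal.ofReal CT *
      ∑' l : ℕ, ((2 : ℝ≥0∞)⁻¹) ^ l * ((((2 : ℝ≥0∞)⁻¹) ^ N₀) ^ l *
        nuM β s G ((Ks 2 s⁻¹).filter fun k => ‖ctr s⁻¹ k - c‖ ≤ 1 / (100 * K))
          (TZ (CT * 2 ^ l) z)) := by
  have hs0 : 0 < s := by linarith
  have hs1 : 1 ≤ s := by linarith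
  obtain ⟨J, hJ⟩ : ∃ J, J = (Ks 2 s⁻¹).filter fun k => ‖ctr s⁻¹ k - c‖ ≤ 1 / (100 * K) := ⟨_, rfl⟩
  rw [← hJ]
  have hJk : ∀ k ∈ J, ‖ctr s⁻¹ k‖ ≤ D' := by
    intro k hk
    rw [hJ, Finset.mem_filter] at hk
    have h1 : 1 / (100 * K) ≤ 1 := by
      rw [div_le_one (by positivity)]
      linarith
    have e1 : ctr s⁻¹ k = (ctr s⁻¹ k - c) + c := by abel
    rw [e1]
    refine (norm_add_le _ _).trans ?_
    linarith [hk.2]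
  have hTk : ∀ k, TC (fun ζ => cp β (ctr s⁻¹ k) s⁻¹ ζ * G ζ) := fun k =>
    hCPS 2 β (ctr s⁻¹ k) s⁻¹ G hβ.1 (by positivity) hG fun ζ hζ => (hsupp ζ hζ).1
  have hmeas : ∀ k, Measurable (fun z' => ‖TP β (ctr s⁻¹ k) s⁻¹ G z'‖ₑ ^ 2) := by
    intro k
    have h1 : Continuous (fun z' => TP β (ctr s⁻¹ k) s⁻¹ G z') :=
      (hSCH 2 (fun ζ => cp β (ctr s⁻¹ k) s⁻¹ ζ * G ζ) (hTk k)).1
    exact h1.enorm.measurable.pow_const 2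
  -- only the caps of `J`
  have hsumJ : ∑ k ∈ Ks 2 s⁻¹, ∫⁻ z', ‖TP β (ctr s⁻¹ k) s⁻¹ G z'‖ₑ ^ 2 *
      ENNReal.ofReal (wt N' (s⁻¹ • (s • z - z'))) =
      ∑ k ∈ J, ∫⁻ z', ‖TP β (ctr s⁻¹ k) s⁻¹ G z'‖ₑ ^ 2 *
      ENNReal.ofReal (wt N' (s⁻¹ • (s • z - z'))) := by
    rw [hJ]
    refine (Finset.sum_filter_of_ne fun k _ hk => ?_).symm
    by_contra hcon
    apply hk
    have h1 : ∀ z', TP β (ctr s⁻¹ k) s⁻¹ G z' = 0 := fun z' =>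
      TP_zero hβ hK hs (fun ζ hζ => (hsupp ζ hζ).2.2.1) hcon z'
    simp [h1]
  rw [hsumJ]
  -- one cap
  have hcap : ∀ k ∈ J, ∫⁻ z', ‖TP β (ctr s⁻¹ k) s⁻¹ G z'‖ₑ ^ 2 *
      ENNReal.ofReal (wt N' (s⁻¹ • (s • z - z'))) ≤
      ENNReal.ofReal (CL / s) * ∑' l : ℕ, ENNReal.ofReal (CT * ((2 : ℝ) ^ ((N₀ + 1) * l))⁻¹) *
        ∫⁻ z', ‖TP β (ctr s⁻¹ k) s⁻¹ G z'‖ₑ ^ 2 *
          (TZ (CT * 2 ^ l) z).indicator 1 ((s⁻¹ • z', ctr s⁻¹ k) : Z 2 × E 2) := by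
    intro k hk
    have h1 := hL (ctr s⁻¹ k) s (fun ζ => cp β (ctr s⁻¹ k) s⁻¹ ζ * G ζ) (s • z) hs1 (hJk k hk)
      (hTk k) (fun ζ hζ => by
        obtain ⟨a1, a2, -, a4⟩ := hsupp ζ (right_ne_zero_of_mul hζ)
        refine ⟨a1, a2, (cp_supp hβ hs0 (left_ne_zero_of_mul hζ)).trans ?_, a4.trans ?_⟩
        · exact div_le_div_of_nonneg_right (by linarith) hs0.le
        · exact div_le_div_of_nonneg_right hDD (by positivity))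
    refine h1.trans (mul_le_mul_right ?_ _)
    have h2 : ∀ z', ‖TF (fun ζ => cp β (ctr s⁻¹ k) s⁻¹ ζ * G ζ) z'‖ₑ ^ 2 *
        ENNReal.ofReal (wt (N₀ + 1) (Tu (ctr s⁻¹ k) s (s • z - z'))) ≤
        ∑' l : ℕ, ENNReal.ofReal (CT * ((2 : ℝ) ^ ((N₀ + 1) * l))⁻¹) *
          (‖TP β (ctr s⁻¹ k) s⁻¹ G z'‖ₑ ^ 2 *
          (TZ (CT * 2 ^ l) z).indicator 1 ((s⁻¹ • z', ctr s⁻¹ k) : Z 2 × E 2)) := by
      intro z'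
      refine (mul_le_mul_right (hT (ctr s⁻¹ k) s (s • z) z' hs1 (hJk k hk)) _).trans
        (le_of_eq ?_)
      rw [← ENNReal.tsum_mul_left]
      refine tsum_congr fun l => ?_
      have e1 : (TZ (CT * 2 ^ l * s) (s • z)).indicator (1 : Z 2 × E 2 → ℝ≥0∞)
          ((z', ctr s⁻¹ k) : Z 2 × E 2) =
          (TZ (CT * 2 ^ l) z).indicator 1 ((s⁻¹ • z', ctr s⁻¹ k) : Z 2 × E 2) := by
        have h3 := TZ_scale hs0 (CT * 2 ^ l) z z' (ctr s⁻¹ k)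
        by_cases h4 : ((s⁻¹ • z', ctr s⁻¹ k) : Z 2 × E 2) ∈ TZ (CT * 2 ^ l) z
        · rw [Set.indicator_of_mem h4, Set.indicator_of_mem (h3.2 h4)]
          rfl
        · rw [Set.indicator_of_notMem h4, Set.indicator_of_notMem fun h => h4 (h3.1 h)]
      rw [e1]
      have e2 : TF (fun ζ => cp β (ctr s⁻¹ k) s⁻¹ ζ * G ζ) z' = TP β (ctr s⁻¹ k) s⁻¹ G z' := rfl
      rw [e2]
      ring
    refine (lintegral_mono h2).trans (le_of_eq ?_)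
    have hmi : ∀ l : ℕ, Measurable (fun z' : Z 2 => (TZ (CT * 2 ^ l) z).indicator
        (1 : Z 2 × E 2 → ℝ≥0∞) ((s⁻¹ • z', ctr s⁻¹ k) : Z 2 × E 2)) := by
      intro l
      have hf : Measurable (fun z' : Z 2 => ((s⁻¹ • z', ctr s⁻¹ k) : Z 2 × E 2)) := by fun_prop
      exact ((measurable_one.indicator (TZ_closed (CT * 2 ^ l) z).measurableSet)).comp hf
    rw [lintegral_tsum fun l => ?_]
    · exact tsum_congr fun l => lintegral_const_mul _ ((hmeas k).mul (hmi l))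
    · exact (((hmeas k).mul (hmi l)).const_mul _).aemeasurable
  refine (Finset.sum_le_sum hcap).trans (le_of_eq ?_)
  rw [← Finset.mul_sum, ← Summable.tsum_finsetSum fun k _ => ENNReal.summable, mul_assoc,
    ← ENNReal.tsum_mul_left (a := ENNReal.ofReal CT)]
  congr 1
  refine tsum_congr fun l => ?_
  rw [nuM_apply β s G J (TZ_closed (CT * 2 ^ l) z).measurableSet, ← Finset.mul_sum,
    ofReal_pow_two CT (by linarith)]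
  have e3 : ((2 : ℝ≥0∞)⁻¹) ^ ((N₀ + 1) * l) = ((2 : ℝ≥0∞)⁻¹) ^ l * (((2 : ℝ≥0∞)⁻¹) ^ N₀) ^ l := by
    rw [← pow_mul, ← pow_add]
    congr 1
    ring
  rw [e3]
  ring

/-- the decay of the terms -/
theorem decay {E₁ : ℝ} {N₀ : ℕ} (hN : 3 * E₁ + 3 ≤ N₀) (L : ℕ) :
    ((((2 : ℝ≥0∞)⁻¹) ^ N₀) ^ L) ^ (1 / 3 : ℝ) * ENNReal.ofReal (((2 : ℝ) ^ L) ^ E₁) ≤
      ((2 : ℝ≥0∞)⁻¹) ^ L := by
  obtain ⟨X, hX⟩ : ∃ X : ℝ, X = (2 : ℝ) ^ L := ⟨_, rfl⟩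
  have hX1 : 1 ≤ X := by
    rw [hX]
    exact one_le_pow₀ (by norm_num)
  have hX0 : 0 < X := by linarith
  have e0 : ∀ n : ℕ, ((2 : ℝ≥0∞)⁻¹) ^ n = ENNReal.ofReal (((2 : ℝ) ^ n)⁻¹) := by
    intro n
    have := ofReal_pow_two 1 (by norm_num) n
    rw [one_mul, ENNReal.ofReal_one, one_mul] at this
    exact this.symm
  have e1 : (((2 : ℝ≥0∞)⁻¹) ^ N₀) ^ L = ENNReal.ofReal (X ^ (-(N₀ : ℝ))) := by
    rw [← pow_mul, e0, hX, mul_comm, pow_mul, Real.rpow_neg (by positivity), Real.rpow_natCast]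
  rw [e1, e0, ← hX, ENNReal.ofReal_rpow_of_nonneg (by positivity) (by norm_num),
    ← ENNReal.ofReal_mul (by positivity), ← Real.rpow_mul hX0.le, ← Real.rpow_add hX0]
  refine ENNReal.ofReal_le_ofReal ?_
  rw [← Real.rpow_neg_one]
  refine Real.rpow_le_rpow_of_exponent_le hX1 ?_
  linarith

theorem pf_FLM (hMKA : T_MKA) (hLCT : T_LCT) (hTUB : T_TUB) (hPUS : T_PUS) (hPLN : T_PLN)
    (hCPS : T_CPS) (hSCH : T_SCH) : T_FLM := by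
  classical
  intro ε D β hε hD hβ
  obtain ⟨CM, E₁, hCM, hE, hM⟩ := hMKA ε hε
  obtain ⟨N₀, hN₀⟩ := exists_nat_ge (3 * E₁ + 3)
  obtain ⟨N', CL, hN', hCL, hL⟩ := hLCT 2 (N₀ + 1) (max D 13) (hD.trans (le_max_left _ _))
  obtain ⟨CT, hCT, hT⟩ := hTUB (N₀ + 1) (max D 13) (hD.trans (le_max_left _ _))
  have hCT0 : 0 < CT := by linarith
  obtain ⟨a, ha⟩ : ∃ a : ℝ, a = (((CL * CT) ^ (1 / 3 : ℝ)) ^ 4 * (((2 : ℝ) ^ (1 / 3 : ℝ)) ^ 4)) *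
      (CM * CT ^ E₁ * 4 ^ ε * 2) := ⟨_, rfl⟩
  refine ⟨N', max 1 a, E₁, by omega, le_max_left _ _, hE, ?_⟩
  intro K s c G z₀ hK hs hc hInd hTC hsupp
  have hs0 : 0 < s := by linarith
  have hs1 : 1 ≤ s := by linarith
  have hK0 : 0 < K := by linarith
  obtain ⟨J, hJ⟩ : ∃ J : Fin 4 → Finset (Fin 2 → ℤ), J = fun i =>
      (Ks 2 s⁻¹).filter fun k => ‖ctr s⁻¹ k - c i‖ ≤ 1 / (100 * K) := ⟨_, rfl⟩
  have hνu : ∀ i, nuM β s (G i) (J i) univ ≤ ENNReal.ofReal (∫ ζ, ‖G i ζ‖ ^ 2) := by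
    intro i
    rw [nuM_apply β s (G i) (J i) MeasurableSet.univ]
    refine le_trans (le_of_eq ?_) (energy hPUS hPLN hCPS hβ (inv_pos.2 hs0) (J i) (hTC i)
      fun ζ hζ => (hsupp i ζ hζ).1)
    refine Finset.sum_congr rfl fun k _ => ?_
    simp
  haveI hfin : ∀ i, IsFiniteMeasure (nuM β s (G i) (J i)) := fun i =>
    ⟨(hνu i).trans_lt ENNReal.ofReal_lt_top⟩
  have hae : ∀ i, ∀ᵐ p ∂(nuM β s (G i) (J i)), ‖p.2 - c i‖ ≤ 1 / (100 * K) := by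
    intro i
    have hm : MeasurableSet {p : Z 2 × E 2 | ‖p.2 - c i‖ ≤ 1 / (100 * K)} := by
      have h : Continuous fun p : Z 2 × E 2 => ‖p.2 - c i‖ := by fun_prop
      exact (isClosed_le h continuous_const).measurableSet
    rw [ae_iff]
    have e1 : {p : Z 2 × E 2 | ¬ ‖p.2 - c i‖ ≤ 1 / (100 * K)} =
        {p : Z 2 × E 2 | ‖p.2 - c i‖ ≤ 1 / (100 * K)}ᶜ := rfl
    rw [e1, nuM_apply β s (G i) (J i) hm.compl]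
    refine Finset.sum_eq_zero fun k hk => ?_
    have hk2 : ‖ctr s⁻¹ k - c i‖ ≤ 1 / (100 * K) := by
      rw [hJ] at hk
      exact (Finset.mem_filter.1 hk).2
    have h2 : ∀ z' : Z 2, ({p : Z 2 × E 2 | ‖p.2 - c i‖ ≤ 1 / (100 * K)}ᶜ).indicator
        (1 : Z 2 × E 2 → ℝ≥0∞) ((s⁻¹ • z', ctr s⁻¹ k) : Z 2 × E 2) = 0 := by
      intro z'
      have h3 : ((s⁻¹ • z', ctr s⁻¹ k) : Z 2 × E 2) ∉
          {p : Z 2 × E 2 | ‖p.2 - c i‖ ≤ 1 / (100 * K)}ᶜ := fun h => h hk2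
      exact Set.indicator_of_notMem h3 _
    simp only [h2, mul_zero, lintegral_zero]
  -- the product at a point
  obtain ⟨q, hq⟩ : ∃ q : ℝ≥0∞, q = (2 : ℝ≥0∞)⁻¹ := ⟨_, rfl⟩
  have hpt : ∀ z : Z 2, ∏ i, (∑ k ∈ Ks 2 s⁻¹, ∫⁻ z', ‖TP β (ctr s⁻¹ k) s⁻¹ (G i) z'‖ₑ ^ 2 *
      ENNReal.ofReal (wt N' (s⁻¹ • (s • z - z')))) ^ (1 / 3 : ℝ) ≤
      (((ENNReal.ofReal (CL / s) * ENNReal.ofReal CT) ^ (1 / 3 : ℝ)) ^ 4 *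
        ((2 : ℝ≥0∞) ^ (1 / 3 : ℝ)) ^ 4) * ∑' L : ℕ, ((q ^ N₀) ^ L) ^ (1 / 3 : ℝ) *
          ∏ i, nuM β s (G i) (J i) (TZ (CT * 2 ^ L) z) ^ (1 / 3 : ℝ) := by
    intro z
    have h1 : ∀ i, (∑ k ∈ Ks 2 s⁻¹, ∫⁻ z', ‖TP β (ctr s⁻¹ k) s⁻¹ (G i) z'‖ₑ ^ 2 *
        ENNReal.ofReal (wt N' (s⁻¹ • (s • z - z')))) ^ (1 / 3 : ℝ) ≤
        (ENNReal.ofReal (CL / s) * ENNReal.ofReal CT) ^ (1 / 3 : ℝ) *
          (∑' l : ℕ, ((2 : ℝ≥0∞)⁻¹) ^ l * ((q ^ N₀) ^ l *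
            nuM β s (G i) (J i) (TZ (CT * 2 ^ l) z))) ^ (1 / 3 : ℝ) := by
      intro i
      rw [← ENNReal.mul_rpow_of_nonneg _ _ (by norm_num)]
      refine ENNReal.rpow_le_rpow ?_ (by norm_num)
      rw [hq, hJ]
      exact capsum hSCH hCPS hβ hK hs hD (le_max_left _ _) (le_max_right _ _) hCT hL hT (hc i)
        (hTC i) (hsupp i) z
    refine (Finset.prod_le_prod' fun i _ => h1 i).trans ?_
    rw [Finset.prod_mul_distrib, Finset.prod_const, Finset.card_univ, Fintype.card_fin, mul_assoc]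
    refine mul_le_mul_right (prod_sum_le (q ^ N₀)
      (fun i l => nuM β s (G i) (J i) (TZ (CT * 2 ^ l) z)) fun i l l' hll => ?_) _
    refine measure_mono (TZ_mono ?_ z)
    exact mul_le_mul_of_nonneg_left (pow_le_pow_right₀ (by norm_num) hll) hCT0.le
  -- measurability
  have hmν : ∀ i (L : ℕ), Measurable fun z : Z 2 => nuM β s (G i) (J i) (TZ (CT * 2 ^ L) z) := by
    intro i L
    exact measurable_measure_prodMk_left (ν := nuM β s (G i) (J i))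
      (TZ_closed2 (CT * 2 ^ L)).measurableSet
  have hmp : ∀ L : ℕ, Measurable fun z : Z 2 =>
      ∏ i, nuM β s (G i) (J i) (TZ (CT * 2 ^ L) z) ^ (1 / 3 : ℝ) := fun L =>
    Finset.measurable_fun_prod _ fun i _ => (hmν i L).pow_const _
  -- one radius
  have hrad : ∀ L : ℕ, ((q ^ N₀) ^ L) ^ (1 / 3 : ℝ) *
      ∫⁻ z in {z | ‖z - s⁻¹ • z₀‖ ≤ 4 * s},
        ∏ i, nuM β s (G i) (J i) (TZ (CT * 2 ^ L) z) ^ (1 / 3 : ℝ) ≤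
      (ENNReal.ofReal (CM * K ^ E₁ * CT ^ E₁ * (4 * s) ^ ε) *
        ∏ i, ENNReal.ofReal (∫ ζ, ‖G i ζ‖ ^ 2) ^ (1 / 3 : ℝ)) * ((2 : ℝ≥0∞)⁻¹) ^ L := by
    intro L
    have h2L : (1 : ℝ) ≤ 2 ^ L := one_le_pow₀ (by norm_num)
    have hW : 1 ≤ CT * 2 ^ L := by nlinarith
    have h1 := hM K (4 * s) (CT * 2 ^ L) (s⁻¹ • z₀) c (fun i => nuM β s (G i) (J i)) hK
      (by linarith) hW hc hInd hae
    have h2 : ∏ i, nuM β s (G i) (J i) univ ^ (1 / 3 : ℝ) ≤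
        ∏ i, ENNReal.ofReal (∫ ζ, ‖G i ζ‖ ^ 2) ^ (1 / 3 : ℝ) :=
      Finset.prod_le_prod' fun i _ => ENNReal.rpow_le_rpow (hνu i) (by norm_num)
    have e1 : ENNReal.ofReal (CM * K ^ E₁ * (CT * 2 ^ L) ^ E₁ * (4 * s) ^ ε) =
        ENNReal.ofReal (CM * K ^ E₁ * CT ^ E₁ * (4 * s) ^ ε) *
          ENNReal.ofReal (((2 : ℝ) ^ L) ^ E₁) := by
      rw [← ENNReal.ofReal_mul (by positivity), Real.mul_rpow hCT0.le (by positivity)]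
      congr 1
      ring
    rw [e1] at h1
    have h3 := decay hN₀ L
    rw [← hq] at h3 ⊢
    calc ((q ^ N₀) ^ L) ^ (1 / 3 : ℝ) * ∫⁻ z in {z | ‖z - s⁻¹ • z₀‖ ≤ 4 * s},
          ∏ i, nuM β s (G i) (J i) (TZ (CT * 2 ^ L) z) ^ (1 / 3 : ℝ)
        ≤ ((q ^ N₀) ^ L) ^ (1 / 3 : ℝ) *
          (ENNReal.ofReal (CM * K ^ E₁ * CT ^ E₁ * (4 * s) ^ ε) *
            ENNReal.ofReal (((2 : ℝ) ^ L) ^ E₁) *
            ∏ i, ENNReal.ofReal (∫ ζ, ‖G i ζ‖ ^ 2) ^ (1 / 3 : ℝ)) :=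
          mul_le_mul_right (h1.trans (mul_le_mul_right h2 _)) _
      _ = (ENNReal.ofReal (CM * K ^ E₁ * CT ^ E₁ * (4 * s) ^ ε) *
            ∏ i, ENNReal.ofReal (∫ ζ, ‖G i ζ‖ ^ 2) ^ (1 / 3 : ℝ)) *
          (((q ^ N₀) ^ L) ^ (1 / 3 : ℝ) * ENNReal.ofReal (((2 : ℝ) ^ L) ^ E₁)) := by ring
      _ ≤ _ := mul_le_mul_right h3 _
  -- the integral
  have e4 : (4 : ℝ) * s ^ 2 = s * (4 * s) := by ring
  rw [e4, lint_scale hs0]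
  obtain ⟨A, hA⟩ : ∃ A : ℝ≥0∞, A = (((ENNReal.ofReal (CL / s) * ENNReal.ofReal CT) ^ (1 / 3 : ℝ)) ^ 4 *
        ((2 : ℝ≥0∞) ^ (1 / 3 : ℝ)) ^ 4) := ⟨_, rfl⟩
  have hA2 : A = ENNReal.ofReal (((CL * CT) ^ (1 / 3 : ℝ)) ^ 4 * (((2 : ℝ) ^ (1 / 3 : ℝ)) ^ 4)) *
      (ENNReal.ofReal s⁻¹ ^ (1 / 3 : ℝ)) ^ 4 := by
    have b1 : ENNReal.ofReal (CL / s) * ENNReal.ofReal CT =
        ENNReal.ofReal (CL * CT) * ENNReal.ofReal s⁻¹ := by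
      rw [← ENNReal.ofReal_mul (by positivity), ← ENNReal.ofReal_mul (by positivity)]
      congr 1
      rw [div_eq_mul_inv]
      ring
    have c1 : ENNReal.ofReal (CL * CT) ^ (1 / 3 : ℝ) =
        ENNReal.ofReal ((CL * CT) ^ (1 / 3 : ℝ)) :=
      ENNReal.ofReal_rpow_of_nonneg (by positivity) (by norm_num)
    have c2 : (2 : ℝ≥0∞) ^ (1 / 3 : ℝ) = ENNReal.ofReal ((2 : ℝ) ^ (1 / 3 : ℝ)) := by
      rw [← ENNReal.ofReal_rpow_of_nonneg (by norm_num) (by norm_num), ENNReal.ofReal_ofNat]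
    have c3 : (0 : ℝ) ≤ (CL * CT) ^ (1 / 3 : ℝ) := by positivity
    have c4 : (0 : ℝ) ≤ (2 : ℝ) ^ (1 / 3 : ℝ) := by positivity
    rw [hA, b1, ENNReal.mul_rpow_of_nonneg _ _ (by norm_num), mul_pow, c1, c2,
      ← ENNReal.ofReal_pow c3, ← ENNReal.ofReal_pow c4, ENNReal.ofReal_mul (pow_nonneg c3 4)]
    ring
  have hAtop : A ≠ ∞ := by
    rw [hA2]
    refine ENNReal.mul_ne_top ENNReal.ofReal_ne_top (ENNReal.pow_ne_top ?_)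
    exact ENNReal.rpow_ne_top_of_nonneg (by norm_num) ENNReal.ofReal_ne_top
  have hint : ∫⁻ z in {z | ‖z - s⁻¹ • z₀‖ ≤ 4 * s},
      ∏ i, (∑ k ∈ Ks 2 s⁻¹, ∫⁻ z', ‖TP β (ctr s⁻¹ k) s⁻¹ (G i) z'‖ₑ ^ 2 *
      ENNReal.ofReal (wt N' (s⁻¹ • (s • z - z')))) ^ (1 / 3 : ℝ) ≤
      A * ((ENNReal.ofReal (CM * K ^ E₁ * CT ^ E₁ * (4 * s) ^ ε) *
        ∏ i, ENNReal.ofReal (∫ ζ, ‖G i ζ‖ ^ 2) ^ (1 / 3 : ℝ)) * 2) := by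
    refine (lintegral_mono fun z => hpt z).trans ?_
    rw [← hA, lintegral_const_mul' _ _ hAtop]
    refine mul_le_mul_right ?_ _
    rw [lintegral_tsum fun L => ((hmp L).const_mul _).aemeasurable]
    refine (ENNReal.tsum_le_tsum fun L => ?_).trans
      (le_of_eq ?_) (b := ∑' L : ℕ, (ENNReal.ofReal (CM * K ^ E₁ * CT ^ E₁ * (4 * s) ^ ε) *
        ∏ i, ENNReal.ofReal (∫ ζ, ‖G i ζ‖ ^ 2) ^ (1 / 3 : ℝ)) * ((2 : ℝ≥0∞)⁻¹) ^ L)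
    · rw [lintegral_const_mul _ (hmp L)]
      exact hrad L
    · rw [ENNReal.tsum_mul_left, tsum_two]
  refine (mul_le_mul_right hint _).trans ?_
  have hprod : ∏ i, ENNReal.ofReal (s⁻¹ * ∫ ζ, ‖G i ζ‖ ^ 2) ^ (1 / 3 : ℝ) =
      (ENNReal.ofReal s⁻¹ ^ (1 / 3 : ℝ)) ^ 4 *
        ∏ i, ENNReal.ofReal (∫ ζ, ‖G i ζ‖ ^ 2) ^ (1 / 3 : ℝ) := by
    have b1 : ∀ i, ENNReal.ofReal (s⁻¹ * ∫ ζ, ‖G i ζ‖ ^ 2) ^ (1 / 3 : ℝ) =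
        ENNReal.ofReal s⁻¹ ^ (1 / 3 : ℝ) * ENNReal.ofReal (∫ ζ, ‖G i ζ‖ ^ 2) ^ (1 / 3 : ℝ) := by
      intro i
      rw [ENNReal.ofReal_mul (by positivity), ENNReal.mul_rpow_of_nonneg _ _ (by norm_num)]
    rw [Finset.prod_congr rfl fun i _ => b1 i, Finset.prod_mul_distrib, Finset.prod_const,
      Finset.card_univ, Fintype.card_fin]
  rw [hprod, hA2]
  have hfinal : ENNReal.ofReal (s ^ 4) * (ENNReal.ofReal (((CL * CT) ^ (1 / 3 : ℝ)) ^ 4 *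
      (((2 : ℝ) ^ (1 / 3 : ℝ)) ^ 4)) * (ENNReal.ofReal (CM * K ^ E₁ * CT ^ E₁ * (4 * s) ^ ε) * 2)) ≤
      ENNReal.ofReal (max 1 a * K ^ E₁ * s ^ ε * s ^ 4) := by
    have b2 : (2 : ℝ≥0∞) = ENNReal.ofReal 2 := (ENNReal.ofReal_ofNat 2).symm
    rw [b2, ← ENNReal.ofReal_mul (by positivity), ← ENNReal.ofReal_mul (by positivity),
      ← ENNReal.ofReal_mul (by positivity)]
    refine ENNReal.ofReal_le_ofReal ?_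
    have b3 : s ^ 4 * (((CL * CT) ^ (1 / 3 : ℝ)) ^ 4 * (((2 : ℝ) ^ (1 / 3 : ℝ)) ^ 4) *
        (CM * K ^ E₁ * CT ^ E₁ * (4 * s) ^ ε * 2)) = a * K ^ E₁ * s ^ ε * s ^ 4 := by
      rw [Real.mul_rpow (by norm_num) hs0.le, ha]
      ring
    rw [b3]
    have b4 : a ≤ max 1 a := le_max_right _ _
    gcongr
  calc _ = (ENNReal.ofReal (s ^ 4) * (ENNReal.ofReal (((CL * CT) ^ (1 / 3 : ℝ)) ^ 4 *
      (((2 : ℝ) ^ (1 / 3 : ℝ)) ^ 4)) * (ENNReal.ofReal (CM * K ^ E₁ * CT ^ E₁ * (4 * s) ^ ε) * 2))) *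
      ((ENNReal.ofReal s⁻¹ ^ (1 / 3 : ℝ)) ^ 4 *
        ∏ i, ENNReal.ofReal (∫ ζ, ‖G i ζ‖ ^ 2) ^ (1 / 3 : ℝ)) := by ring
    _ ≤ _ := mul_le_mul_left hfinal _

end Pool.Agent.H4.FP
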