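import Pool.Agent.H82.FP.Targets

/-!
Auxiliary lemmas for row `FLM` of `flp_modules` (MP_ee74d2_an): suprema, scaling, energies.
-/

set_option autoImplicit false

namespace Pool.Agent.H4.FP

open MeasureTheory Set
open Pool.Agent.H83.G
open Pool.Agent.H22.G4 (nv Ind)
open Pool.Agent.H22.G (co)
open Pool.Agent.H82.FP
open scoped ENNReal NNReal RealInnerProductSpace

/-! ### suprema in `ℝ≥0∞` -/

theorem tsum_two : ∑' l : ℕ, ((2 : ℝ≥0∞)⁻¹) ^ l = 2 := by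
  rw [ENNReal.tsum_geometric, ENNReal.one_sub_inv_two, inv_inv]

theorem tsum_le_two_iSup (u : ℕ → ℝ≥0∞) :
    ∑' l : ℕ, ((2 : ℝ≥0∞)⁻¹) ^ l * u l ≤ 2 * ⨆ l, u l := by
  calc ∑' l : ℕ, ((2 : ℝ≥0∞)⁻¹) ^ l * u l ≤ ∑' l : ℕ, ((2 : ℝ≥0∞)⁻¹) ^ l * ⨆ l, u l :=
        ENNReal.tsum_le_tsum fun l => mul_le_mul_right (le_iSup u l) _
    _ = 2 * ⨆ l, u l := by rw [ENNReal.tsum_mul_right, tsum_two]

theorem iSup_rpow_le (u : ℕ → ℝ≥0∞) :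
    (⨆ l, u l) ^ (1 / 3 : ℝ) ≤ ⨆ l, u l ^ (1 / 3 : ℝ) := by
  have h1 : ⨆ l, u l ≤ (⨆ l, u l ^ (1 / 3 : ℝ)) ^ (3 : ℝ) := by
    refine iSup_le fun l => ?_
    calc u l = (u l ^ (1 / 3 : ℝ)) ^ (3 : ℝ) := by
          rw [← ENNReal.rpow_mul]
          norm_num
      _ ≤ _ := ENNReal.rpow_le_rpow (le_iSup (fun l => u l ^ (1 / 3 : ℝ)) l) (by norm_num)
  calc (⨆ l, u l) ^ (1 / 3 : ℝ) ≤ ((⨆ l, u l ^ (1 / 3 : ℝ)) ^ (3 : ℝ)) ^ (1 / 3 : ℝ) :=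
        ENNReal.rpow_le_rpow h1 (by norm_num)
    _ = _ := by
        rw [← ENNReal.rpow_mul]
        norm_num

/-- a product of four suprema -/
theorem prod_iSup_le (g : Fin 4 → ℕ → ℝ≥0∞) (T : ℝ≥0∞)
    (h : ∀ l : Fin 4 → ℕ, ∏ i, g i (l i) ≤ T) : ∏ i, ⨆ l, g i l ≤ T := by
  rw [Fin.prod_univ_four, ENNReal.mul_iSup]
  refine iSup_le fun l3 => ?_
  have e1 : (((⨆ l, g 0 l) * ⨆ l, g 1 l) * ⨆ l, g 2 l) * g 3 l3 =
      (((⨆ l, g 0 l) * ⨆ l, g 1 l) * g 3 l3) * ⨆ l, g 2 l := by ring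
  rw [e1, ENNReal.mul_iSup]
  refine iSup_le fun l2 => ?_
  have e2 : ((⨆ l, g 0 l) * ⨆ l, g 1 l) * g 3 l3 * g 2 l2 =
      ((⨆ l, g 0 l) * (g 3 l3 * g 2 l2)) * ⨆ l, g 1 l := by ring
  rw [e2, ENNReal.mul_iSup]
  refine iSup_le fun l1 => ?_
  have e3 : (⨆ l, g 0 l) * (g 3 l3 * g 2 l2) * g 1 l1 =
      (g 3 l3 * g 2 l2 * g 1 l1) * ⨆ l, g 0 l := by ring
  rw [e3, ENNReal.mul_iSup]
  refine iSup_le fun l0 => ?_
  have h1 := h ![l0, l1, l2, l3]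
  rw [Fin.prod_univ_four] at h1
  simp only [Matrix.cons_val_zero, Matrix.cons_val_one, Matrix.cons_val] at h1
  refine le_trans (le_of_eq ?_) h1
  ring

/-- the product of four weighted sums -/
theorem prod_sum_le (p : ℝ≥0∞) (f : Fin 4 → ℕ → ℝ≥0∞)
    (hf : ∀ i, Monotone (f i)) :
    ∏ i, (∑' l : ℕ, ((2 : ℝ≥0∞)⁻¹) ^ l * (p ^ l * f i l)) ^ (1 / 3 : ℝ) ≤
      ((2 : ℝ≥0∞) ^ (1 / 3 : ℝ)) ^ 4 *
        ∑' L : ℕ, (p ^ L) ^ (1 / 3 : ℝ) * ∏ i, f i L ^ (1 / 3 : ℝ) := by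
  have h1 : ∀ i, (∑' l : ℕ, ((2 : ℝ≥0∞)⁻¹) ^ l * (p ^ l * f i l)) ^ (1 / 3 : ℝ) ≤
      (2 : ℝ≥0∞) ^ (1 / 3 : ℝ) * ⨆ l, (p ^ l * f i l) ^ (1 / 3 : ℝ) := by
    intro i
    refine (ENNReal.rpow_le_rpow (tsum_le_two_iSup _) (by norm_num)).trans ?_
    rw [ENNReal.mul_rpow_of_nonneg _ _ (by norm_num)]
    exact mul_le_mul_right (iSup_rpow_le _) _
  refine (Finset.prod_le_prod' fun i _ => h1 i).trans ?_
  rw [Finset.prod_mul_distrib, Finset.prod_const, Finset.card_univ, Fintype.card_fin]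
  refine mul_le_mul_right (prod_iSup_le _ _ fun l => ?_) _
  have h2 : ∏ i, (p ^ l i * f i (l i)) ^ (1 / 3 : ℝ) ≤
      (p ^ (∑ i, l i)) ^ (1 / 3 : ℝ) * ∏ i, f i (∑ i, l i) ^ (1 / 3 : ℝ) := by
    have h3 : ∀ i, (p ^ l i * f i (l i)) ^ (1 / 3 : ℝ) ≤
        (p ^ l i) ^ (1 / 3 : ℝ) * f i (∑ i, l i) ^ (1 / 3 : ℝ) := by
      intro i
      rw [ENNReal.mul_rpow_of_nonneg _ _ (by norm_num)]
      refine mul_le_mul_right (ENNReal.rpow_le_rpow (hf i ?_) (by norm_num)) _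
      exact Finset.single_le_sum (f := l) (fun _ _ => Nat.zero_le _) (Finset.mem_univ i)
    refine (Finset.prod_le_prod' fun i _ => h3 i).trans (le_of_eq ?_)
    rw [Finset.prod_mul_distrib, ENNReal.prod_rpow_of_nonneg (by norm_num),
      Finset.prod_pow_eq_pow_sum]
  exact h2.trans (ENNReal.le_tsum (f := fun L : ℕ => (p ^ L) ^ (1 / 3 : ℝ) *
    ∏ i, f i L ^ (1 / 3 : ℝ)) (∑ i, l i))

/-! ### scaling -/

theorem lint_scale {s : ℝ} (hs : 0 < s) (F : Z 2 → ℝ≥0∞) (z₀ : Z 2) (r : ℝ) :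
    ∫⁻ z in {z | ‖z - z₀‖ ≤ s * r}, F z = ENNReal.ofReal (s ^ 4) *
      ∫⁻ z in {z | ‖z - s⁻¹ • z₀‖ ≤ r}, F (s • z) := by
  have hm : MeasurableSet {z : Z 2 | ‖z - z₀‖ ≤ s * r} :=
    (isClosed_le (by fun_prop) continuous_const).measurableSet
  have hm' : MeasurableSet {z : Z 2 | ‖z - s⁻¹ • z₀‖ ≤ r} :=
    (isClosed_le (by fun_prop) continuous_const).measurableSet
  have hfin : Module.finrank ℝ (Z 2) = 4 := by
    simp [Module.finrank_prod]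
  haveI i1 : (volume : Measure (E 2 × ℝ)).IsAddHaarMeasure := by
    rw [Measure.volume_eq_prod]
    infer_instance
  haveI i2 : (volume : Measure (Z 2)).IsAddHaarMeasure := by
    rw [Measure.volume_eq_prod]
    infer_instance
  have hmap := MeasureTheory.Measure.map_addHaar_smul (volume : Measure (Z 2)) hs.ne'
  rw [hfin] at hmap
  have hemb : MeasurableEmbedding (fun z : Z 2 => s • z) :=
    (Homeomorph.smulOfNeZero s hs.ne').measurableEmbedding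
  have key : ∀ g : Z 2 → ℝ≥0∞, ∫⁻ z, g z = ENNReal.ofReal (s ^ 4) * ∫⁻ z, g (s • z) := by
    intro g
    have h1 : ∫⁻ z, g (s • z) = ∫⁻ z, g z ∂(Measure.map (fun z : Z 2 => s • z) volume) :=
      (hemb.lintegral_map g).symm
    rw [h1, hmap, lintegral_smul_measure, smul_eq_mul, ← mul_assoc, ← ENNReal.ofReal_mul
      (by positivity), abs_of_pos (by positivity), mul_inv_cancel₀ (by positivity),
      ENNReal.ofReal_one, one_mul]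
  rw [← lintegral_indicator hm, ← lintegral_indicator hm', key]
  congr 1
  refine lintegral_congr fun z => ?_
  have hiff : s • z ∈ {z : Z 2 | ‖z - z₀‖ ≤ s * r} ↔ z ∈ {z : Z 2 | ‖z - s⁻¹ • z₀‖ ≤ r} := by
    show ‖s • z - z₀‖ ≤ s * r ↔ ‖z - s⁻¹ • z₀‖ ≤ r
    have e1 : s • z - z₀ = s • (z - s⁻¹ • z₀) := by
      rw [smul_sub, smul_inv_smul₀ hs.ne']
    rw [e1, norm_smul, Real.norm_of_nonneg hs.le]
    exact mul_le_mul_iff_right₀ hs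
  by_cases hz : z ∈ {z : Z 2 | ‖z - s⁻¹ • z₀‖ ≤ r}
  · rw [Set.indicator_of_mem hz, Set.indicator_of_mem (hiff.2 hz)]
  · rw [Set.indicator_of_notMem hz, Set.indicator_of_notMem fun h => hz (hiff.1 h)]

/-! ### tubes -/

theorem TZ_closed2 (W : ℝ) : IsClosed {q : Z 2 × (Z 2 × E 2) | q.2 ∈ TZ W q.1} := by
  have h : Continuous fun q : Z 2 × (Z 2 × E 2) => ‖q.1 - q.2.1 - (q.1.2.2 - q.2.1.2.2) •
      ((‖q.2.2‖ ^ 2, (-2 : ℝ) • q.2.2, 1) : Z 2)‖ := by fun_prop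
  exact isClosed_le h continuous_const

theorem TZ_closed (W : ℝ) (z : Z 2) : IsClosed (TZ W z) := by
  have h : Continuous fun p : Z 2 × E 2 => (z, p) := by fun_prop
  exact (TZ_closed2 W).preimage h

theorem TZ_mono {W W' : ℝ} (h : W ≤ W') (z : Z 2) : TZ W z ⊆ TZ W' z := fun _ hp => le_trans hp h

theorem TZ_scale {s : ℝ} (hs : 0 < s) (W : ℝ) (z z' : Z 2) (η : E 2) :
    (z', η) ∈ TZ (W * s) (s • z) ↔ (s⁻¹ • z', η) ∈ TZ W z := by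
  show ‖s • z - z' - ((s • z).2.2 - z'.2.2) • Dv η‖ ≤ W * s ↔
    ‖z - s⁻¹ • z' - (z.2.2 - (s⁻¹ • z').2.2) • Dv η‖ ≤ W
  have e1 : s • z - z' - ((s • z).2.2 - z'.2.2) • Dv η =
      s • (z - s⁻¹ • z' - (z.2.2 - (s⁻¹ • z').2.2) • Dv η) := by
    have e2 : (s • z).2.2 - z'.2.2 = s * (z.2.2 - (s⁻¹ • z').2.2) := by
      simp only [Prod.smul_snd, smul_eq_mul]
      field_simp
    rw [e2, smul_sub, smul_sub, smul_inv_smul₀ hs.ne', mul_smul]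
  rw [e1, norm_smul, Real.norm_of_nonneg hs.le, mul_comm W s]
  exact mul_le_mul_iff_right₀ hs

/-! ### energies -/

theorem cp_sum (hPUS : T_PUS) {β : E 2 → ℂ} (hβ : IsPU β) {σ : ℝ} (hσ : 0 < σ)
    (J : Finset (Fin 2 → ℤ)) (ζ : Z 2) : ∑ k ∈ J, ‖cp β (ctr σ k) σ ζ‖ ^ 2 ≤ 1 := by
  have h1 := ((hPUS 2).1 β σ hβ hσ).1 (ζ.1⁻¹ • ζ.2.1)
  have hr := hβ.2.2.1
  choose r hr0 hr1 hr using hr
  simp only [hr] at h1
  have h2 : HasSum (fun k => r (σ⁻¹ • (ζ.1⁻¹ • ζ.2.1 - ctr σ k))) 1 := by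
    refine Complex.hasSum_ofReal.1 ?_
    rw [Complex.ofReal_one]
    exact h1
  have h3 := sum_le_hasSum J (fun k _ => hr0 _) h2
  refine le_trans (Finset.sum_le_sum fun k _ => ?_) h3
  unfold cp
  rw [hr, Complex.norm_real, Real.norm_of_nonneg (hr0 _)]
  have a0 := hr0 (σ⁻¹ • (ζ.1⁻¹ • ζ.2.1 - ctr σ k))
  have a1 := hr1 (σ⁻¹ • (ζ.1⁻¹ • ζ.2.1 - ctr σ k))
  nlinarith

theorem enorm_sq {E' : Type} [SeminormedAddCommGroup E'] (x : E') :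
    ‖x‖ₑ ^ 2 = ENNReal.ofReal (‖x‖ ^ 2) := by
  rw [← ofReal_norm, ENNReal.ofReal_pow (norm_nonneg _)]

theorem energy (hPUS : T_PUS) (hPLN : T_PLN) (hCPS : T_CPS) {β : E 2 → ℂ} (hβ : IsPU β) {σ : ℝ}
    (hσ : 0 < σ) (J : Finset (Fin 2 → ℤ)) {G : Z 2 → ℂ} (hG : TC G)
    (hG1 : ∀ ζ, G ζ ≠ 0 → 1 / 4 ≤ ζ.1) :
    ∑ k ∈ J, ∫⁻ z, ‖TP β (ctr σ k) σ G z‖ₑ ^ 2 ≤ ENNReal.ofReal (∫ ζ, ‖G ζ‖ ^ 2) := by
  have hT : ∀ k, TC (fun ζ => cp β (ctr σ k) σ ζ * G ζ) := fun k =>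
    hCPS 2 β (ctr σ k) σ G hβ.1 hσ hG hG1
  have h1 : ∀ k, ∫⁻ z, ‖TP β (ctr σ k) σ G z‖ₑ ^ 2 =
      ∫⁻ ζ, ‖cp β (ctr σ k) σ ζ * G ζ‖ₑ ^ 2 := by
    intro k
    have h2 := hPLN 2 (fun ζ => cp β (ctr σ k) σ ζ * G ζ) (hT k)
    unfold TP
    rw [h2.1, h2.2]
  simp only [h1]
  rw [← lintegral_finsetSum J fun k _ => ?_]
  · rw [← (hPLN 2 G hG).2]
    refine lintegral_mono fun ζ => ?_
    have h3 : ∀ k, ‖cp β (ctr σ k) σ ζ * G ζ‖ₑ ^ 2 =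
        ENNReal.ofReal (‖cp β (ctr σ k) σ ζ‖ ^ 2 * ‖G ζ‖ ^ 2) := by
      intro k
      rw [enorm_sq, norm_mul, mul_pow]
    simp only [h3]
    rw [← ENNReal.ofReal_sum_of_nonneg fun k _ => by positivity, enorm_sq, ← Finset.sum_mul]
    refine ENNReal.ofReal_le_ofReal ?_
    exact mul_le_of_le_one_left (by positivity) (cp_sum hPUS hβ hσ J ζ)
  · have hc : Continuous (fun ζ => cp β (ctr σ k) σ ζ * G ζ) := (hT k).1.continuous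
    exact (hc.enorm.measurable).pow_const 2

end Pool.Agent.H4.FP
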